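import Mathlib
import Pool.Agent.H47.Tree

namespace Pool.Agent.Results.MP_d84959_lc.Sharing
open Pool.Agent.H47.TreeDefs

theorem result (φ ψ : Fm) (h : Acceptable (.imp φ ψ)) : ∃ n ∈ letters φ, n ∈ letters ψ :=
  Pool.Agent.H47.Tree.share φ ψ h

end Pool.Agent.Results.MP_d84959_lc.Sharing
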